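import Pool.Agent.Helper30.TG.Spec

/-!
# Part ARI: the lower bounds for the number of triangular cells
-/

set_option autoImplicit false

namespace Pool.Agent.Helper53.TG.ARI

open Pool.Agent.Helper30.TG Finset
open scoped Classical

theorem dc {α β : Type} (s : Finset α) (t : Finset β) (r : α → β → Prop)
    [h1 : ∀ a, DecidablePred (fun b => r a b)] [h2 : ∀ b, DecidablePred (fun a => r a b)] :
    ∑ a ∈ s, (t.filter (fun b => r a b)).card = ∑ b ∈ t, (s.filter (fun a => r a b)).card := by
  simp only [card_filter]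
  rw [sum_comm]

theorem main (hBND : S_BND) (hGE3 : S_GE3) (hTRI : S_TRI) (hQUAD : S_QUAD) (hCNT : S_CNT)
    (hSEG : S_SEG) (hGDC : S_GDC) (hTOT : S_TOT) (hXC : S_XC) : S_ARI := by
  intro p n hn4 hp
  have hn : 3 ≤ n := by omega
  obtain ⟨hD, hBC⟩ := hBND p n hn hp
  obtain ⟨t1, t2, t3, t4, t5, t6⟩ := hTOT p n hn hp
  have hf := hCNT p n hn hp
  have hmu := (hXC p n hn hp).2
  set f := (Fc p n).card with hfdef
  set S := ∑ U ∈ Fc p n, kk p n U with hS
  set N := ∑ U ∈ Fc p n, (GB (sl p) (ic p) (EE n) U).card with hN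
  -- cells
  have hcell1 : 10 * f ≤ TT p n + 2 * S + N := by
    have h1 : TT p n = ∑ U ∈ Fc p n, if kk p n U = 3 then 1 else 0 := by
      unfold TT
      rw [card_filter]
    have h2 : 10 * f = ∑ _U ∈ Fc p n, 10 := by
      rw [sum_const, smul_eq_mul, mul_comm]
    rw [h1, h2, hS, hN, mul_sum, ← sum_add_distrib, ← sum_add_distrib]
    refine sum_le_sum fun U hU => ?_
    have k3 : 3 ≤ kk p n U := (hGE3 (sl p) (ic p) (EE n) U hD (hBC U hU)).1
    have g3 : kk p n U = 3 → 3 ≤ (GB (sl p) (ic p) (EE n) U).card :=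
      fun h => hTRI (sl p) (ic p) (EE n) U hD (hBC U hU) h
    have g4 : kk p n U = 4 → 2 ≤ (GB (sl p) (ic p) (EE n) U).card :=
      fun h => hQUAD (sl p) (ic p) (EE n) U hD (hBC U hU) h
    by_cases c3 : kk p n U = 3
    · have := g3 c3
      rw [if_pos c3]
      omega
    · rw [if_neg c3]
      by_cases c4 : kk p n U = 4
      · have := g4 c4
        omega
      · omega
  have hcell2 : 4 * f ≤ TT p n + S := by
    have h1 : TT p n = ∑ U ∈ Fc p n, if kk p n U = 3 then 1 else 0 := by
      unfold TT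
      rw [card_filter]
    have h2 : 4 * f = ∑ _U ∈ Fc p n, 4 := by
      rw [sum_const, smul_eq_mul, mul_comm]
    rw [h1, h2, hS, ← sum_add_distrib]
    refine sum_le_sum fun U hU => ?_
    have k3 : 3 ≤ kk p n U := (hGE3 (sl p) (ic p) (EE n) U hD (hBC U hU)).1
    by_cases c3 : kk p n U = 3
    · rw [if_pos c3]
      omega
    · rw [if_neg c3]
      omega
  -- sums over the chords
  set m := (EE n \ PE n).card with hm
  set M := ∑ x ∈ Xc p n, mu p n x with hM
  set M3 := ∑ x ∈ (Xc p n).filter (fun x => 3 ≤ mu p n x), mu p n x with hM3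
  have hmc : m + n = n.choose 2 := by
    rw [hm, card_sdiff_of_subset t5, t3, t4]
    have : (PE n).card ≤ (EE n).card := card_le_card t5
    rw [t3, t4] at this
    omega
  have hcrd : ∑ e ∈ EE n \ PE n, cr p n e = M := by
    have h1 := sum_sdiff (f := fun e => cr p n e) t5
    have h2 : ∑ e ∈ PE n, cr p n e = 0 := sum_eq_zero fun e he => (t6 e he).1
    omega
  have hnsd : ∑ e ∈ EE n \ PE n, ns p n e = M3 := by
    have h1 := sum_sdiff (f := fun e => ns p n e) t5
    have h2 : ∑ e ∈ PE n, ns p n e = 0 := sum_eq_zero fun e he => (t6 e he).2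
    omega
  have hSb : S ≤ 2 * m + 2 * M + n := by
    have h1 : S = ∑ e ∈ EE n, ((Fc p n).filter fun U => e ∈ Bd (sl p) (ic p) (EE n) U).card := by
      refine Eq.trans ?_ (dc (Fc p n) (EE n) (fun U e => e ∈ Bd (sl p) (ic p) (EE n) U))
      refine sum_congr rfl fun U _ => ?_
      unfold kk
      congr 1
      ext e
      simp only [mem_filter]
      exact ⟨fun h => ⟨(mem_filter.1 h).1, h⟩, fun h => h.2⟩
    rw [h1, ← sum_sdiff t5]
    have h2 : ∑ e ∈ EE n \ PE n,
        ((Fc p n).filter fun U => e ∈ Bd (sl p) (ic p) (EE n) U).card ≤ 2 * m + 2 * M := by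
      calc _ ≤ ∑ e ∈ EE n \ PE n, (2 + 2 * cr p n e) := by
            refine sum_le_sum fun e he => ?_
            have := (hSEG p n hn hp e (mem_sdiff.1 he).1).1
            omega
        _ = 2 * m + 2 * M := by
            rw [sum_add_distrib, ← mul_sum, hcrd, sum_const, smul_eq_mul, hm]
            ring
    have h3 : ∑ e ∈ PE n,
        ((Fc p n).filter fun U => e ∈ Bd (sl p) (ic p) (EE n) U).card ≤ n := by
      calc _ ≤ ∑ _e ∈ PE n, 1 :=
            sum_le_sum fun e he => (hSEG p n hn hp e (t5 he)).2 he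
        _ = n := by rw [sum_const, smul_eq_mul, mul_one, t4]
    omega
  have hNb : N ≤ 3 * m + M + 2 * M3 + n := by
    have h1 : N = ∑ e ∈ EE n, ((Fc p n).filter fun U => Good (sl p) (ic p) (EE n) U e).card := by
      exact dc (Fc p n) (EE n) (fun U e => Good (sl p) (ic p) (EE n) U e)
    rw [h1, ← sum_sdiff t5]
    have h2 : ∑ e ∈ EE n \ PE n,
        ((Fc p n).filter fun U => Good (sl p) (ic p) (EE n) U e).card ≤ 3 * m + M + 2 * M3 := by
      calc _ ≤ ∑ e ∈ EE n \ PE n, (3 + cr p n e + 2 * ns p n e) := by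
            refine sum_le_sum fun e he => ?_
            have := hGDC p n hn hp e (mem_sdiff.1 he).1
            omega
        _ = 3 * m + M + 2 * M3 := by
            rw [sum_add_distrib, sum_add_distrib, ← mul_sum, hcrd, hnsd, sum_const, smul_eq_mul, hm]
            ring
    have h3 : ∑ e ∈ PE n,
        ((Fc p n).filter fun U => Good (sl p) (ic p) (EE n) U e).card ≤ n := by
      calc _ ≤ ∑ _e ∈ PE n, 1 := by
            refine sum_le_sum fun e he => le_trans (card_le_card ?_) ((hSEG p n hn hp e (t5 he)).2 he)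
            intro U hU
            rw [mem_filter] at hU ⊢
            exact ⟨hU.1, mem_filter.2 ⟨t5 he, hU.2.1⟩⟩
        _ = n := by rw [sum_const, smul_eq_mul, mul_one, t4]
    omega
  -- the crossing points
  set X := (Xc p n).card with hX
  have hMX : ∑ x ∈ Xc p n, (mu p n x - 1) + X = M := by
    have h1 : X = ∑ _x ∈ Xc p n, 1 := by rw [sum_const, smul_eq_mul, mul_one]
    rw [h1, ← sum_add_distrib]
    refine sum_congr rfl fun x hx => ?_
    have := hmu x hx
    omega
  have hc1 : 2 * (n - 1).choose 2 + 3 * n = n ^ 2 + 2 := by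
    rw [Nat.choose_two_right]
    obtain ⟨k, rfl⟩ : ∃ k, n = k + 2 := ⟨n - 2, by omega⟩
    have e1 : k + 2 - 1 = k + 1 := by omega
    have e2 : k + 1 - 1 = k := by omega
    rw [e1, e2, Nat.mul_div_cancel']
    · ring
    · have := Nat.even_mul_succ_self k
      rw [mul_comm]
      exact this.two_dvd
  have hc2 : 2 * n.choose 2 + n = n ^ 2 := by
    rw [Nat.choose_two_right]
    obtain ⟨k, rfl⟩ : ∃ k, n = k + 1 := ⟨n - 1, by omega⟩
    have e1 : k + 1 - 1 = k := by omega
    rw [e1, Nat.mul_div_cancel']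
    · ring
    · have := Nat.even_mul_succ_self k
      rw [mul_comm]
      exact this.two_dvd
  constructor
  · -- the general case
    have h1 : 24 * X + 4 * M3 ≤ 12 * M := by
      have h2 : 4 * M3 = ∑ x ∈ Xc p n, if 3 ≤ mu p n x then 4 * mu p n x else 0 := by
        rw [hM3, mul_sum, sum_filter]
      have h3 : 24 * X = ∑ _x ∈ Xc p n, 24 := by
        rw [sum_const, smul_eq_mul, mul_comm]
      rw [h2, h3, hM, mul_sum, ← sum_add_distrib]
      refine sum_le_sum fun x hx => ?_
      have := hmu x hx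
      split_ifs <;> omega
    nlinarith [h1, hcell1, hcell2, hSb, hNb, hMX, hc1, hc2, hmc, hf]
  · intro hg
    have h1 : M = 2 * X := by
      rw [hM, sum_congr rfl hg, sum_const, smul_eq_mul, mul_comm]
    have h2 : M3 = 0 := by
      rw [hM3]
      refine sum_eq_zero fun x hx => ?_
      have := hg x (mem_filter.1 hx).1
      have := (mem_filter.1 hx).2
      omega
    have hc3 : 2 * (n - 4).choose 2 + 9 * n = n ^ 2 + 20 := by
      rw [Nat.choose_two_right]
      obtain ⟨k, rfl⟩ : ∃ k, n = k + 4 := ⟨n - 4, by omega⟩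
      have e1 : k + 4 - 4 = k := by omega
      rw [e1]
      rcases Nat.eq_zero_or_pos k with c | c
      · subst c
        norm_num
      · obtain ⟨l, rfl⟩ : ∃ l, k = l + 1 := ⟨k - 1, by omega⟩
        have e2 : l + 1 - 1 = l := by omega
        rw [e2, Nat.mul_div_cancel']
        · ring
        · have := Nat.even_mul_succ_self l
          rw [mul_comm]
          exact this.two_dvd
    have hc4 : n * (n - 3) + 3 * n = n ^ 2 := by
      obtain ⟨k, rfl⟩ : ∃ k, n = k + 3 := ⟨n - 3, by omega⟩
      have e1 : k + 3 - 3 = k := by omega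
      rw [e1]
      ring
    nlinarith [h1, h2, hcell1, hSb, hNb, hMX, hc1, hc2, hc3, hc4, hmc, hf]

end Pool.Agent.Helper53.TG.ARI
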