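import Pool.Agent.Helper30.TG.Spec

/-!
# Part TOT: double counting
-/

set_option autoImplicit false

namespace Pool.Agent.Helper53.TG.TOT

open Pool.Agent.Helper30.TG Finset
open scoped Classical

theorem dc {α β : Type} (s : Finset α) (t : Finset β) (r : α → β → Prop) :
    ∑ a ∈ s, (t.filter (fun b => r a b)).card = ∑ b ∈ t, (s.filter (fun a => r a b)).card := by
  simp only [card_filter]
  exact sum_comm

theorem card_EE (n : ℕ) : (EE n).card = n.choose 2 := by
  have h1 : (EE n).card = ∑ j ∈ range n, ((range n).filter fun i => i < j).card := by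
    unfold EE
    rw [card_filter, sum_product_right]
    exact sum_congr rfl fun j _ => (card_filter _ _).symm
  rw [h1, Nat.choose_two_right, ← sum_range_id]
  refine sum_congr rfl fun j hj => ?_
  rw [mem_range] at hj
  have h2 : (range n).filter (fun i => i < j) = range j := by
    ext i
    simp only [mem_filter, mem_range]
    omega
  rw [h2, card_range]

theorem card_PE {n : ℕ} (hn : 3 ≤ n) : (PE n).card = n := by
  have h1 : PE n = insert (0, n - 1) ((range (n - 1)).image fun i => (i, i + 1)) := by
    ext ⟨i, j⟩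
    unfold PE EE
    simp only [mem_filter, mem_product, mem_range, mem_insert, mem_image, Prod.mk.injEq]
    constructor
    · rintro ⟨⟨⟨h1, h2⟩, h3⟩, h4 | ⟨h4, h5⟩⟩
      · right
        exact ⟨i, by omega, rfl, by omega⟩
      · left
        exact ⟨h4, h5⟩
    · rintro (⟨h1, h2⟩ | ⟨k, h1, h2, h3⟩)
      · exact ⟨⟨⟨by omega, by omega⟩, by omega⟩, Or.inr ⟨h1, h2⟩⟩
      · exact ⟨⟨⟨by omega, by omega⟩, by omega⟩, Or.inl (by omega)⟩
  rw [h1, card_insert_of_notMem, card_image_of_injective, card_range]
  · omega
  · intro i j h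
    exact (Prod.mk.inj h).1
  · simp only [mem_image, mem_range, Prod.mk.injEq, not_exists, not_and]
    intro k _ h2
    omega

theorem main (hNZ : S_NZ) (hXC : S_XC) : S_TOT := by
  intro p n hn hp
  have hno : ∀ e ∈ PE n, ∀ x ∈ Xc p n, ¬ On p e x := by
    intro e he x hx hon
    obtain ⟨g, hg, g', hg', hne, o1, o2⟩ := ((hXC p n hn hp).1 x).1 hx
    have heE : e ∈ EE n := (mem_filter.1 he).1
    obtain ⟨k, hk, hke, hok⟩ : ∃ k ∈ EE n, k ≠ e ∧ On p k x := by
      by_cases c : g = e
      · exact ⟨g', hg', fun h => hne (c.trans h.symm), o2⟩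
      · exact ⟨g, hg, c, o1⟩
    exact (hNZ p n hn hp e heE x.1 hon.2 k hk hke (hok.1.symm.trans hon.1)).1 he
  refine ⟨?_, ?_, card_EE n, card_PE hn, filter_subset _ _, ?_⟩
  · unfold cr mu
    exact dc _ _ _
  · unfold ns
    have h1 : ∀ e, ((Xc p n).filter fun x => On p e x ∧ 3 ≤ mu p n x) =
        ((Xc p n).filter fun x => 3 ≤ mu p n x).filter fun x => On p e x := by
      intro e
      rw [filter_filter]
      exact filter_congr fun x _ => and_comm
    simp only [h1]
    rw [dc]
    rfl
  · intro e he
    unfold cr ns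
    constructor
    · rw [card_eq_zero, filter_eq_empty_iff]
      exact fun x hx => hno e he x hx
    · rw [card_eq_zero, filter_eq_empty_iff]
      exact fun x hx h => hno e he x hx h.1

end Pool.Agent.Helper53.TG.TOT
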